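import Mathlib

/-!
Every tropical polynomial (max-plus, real coefficients, exponents in `ℕ^n`) is rationally
factorizable: `f + g = h` with `g`, `h` finite tropical products (pointwise sums) of units.
-/

namespace Pool.Agent.Results.MP_b8ee47_co.RationalFactor

/-- The value at `x` of the tropical monomial with coefficient `c` and exponent vector `a`,
that is `c + a·x`. -/
def monoVal {n : ℕ} (c : ℝ) (a : Fin n → ℕ) (x : Fin n → ℝ) : ℝ :=
  c + ∑ i, (a i : ℝ) * x i

/-- The tropical polynomial function `x ↦ max_{a ∈ A} (c_a + a·x)` with finite nonempty exponent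
set `A ⊆ ℕ^n` and coefficients `c`. -/
noncomputable def tropEval {n : ℕ} (A : Finset (Fin n → ℕ)) (hA : A.Nonempty)
    (c : (Fin n → ℕ) → ℝ) (x : Fin n → ℝ) : ℝ :=
  A.sup' hA (fun a => monoVal (c a) a x)

/-- `f : ℝ^n → ℝ` is a tropical polynomial. -/
def IsTropPoly {n : ℕ} (f : (Fin n → ℝ) → ℝ) : Prop :=
  ∃ (A : Finset (Fin n → ℕ)) (hA : A.Nonempty) (c : (Fin n → ℕ) → ℝ), f = tropEval A hA c

/-- An exponent vector seen as a point of `ℝ^n`. -/
def realPt {n : ℕ} (a : Fin n → ℕ) : Fin n → ℝ := fun i => (a i : ℝ)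

/-- The regular subdivision of `Newt = conv A` given by the lower faces of
`conv {(a, -c_a) : a ∈ A}` is trivial: the lower hull is the graph over `conv A` of one affine
function `l`, i.e. all lifted points lie on or above the graph of `l`, and the graph of `l` over
`conv A` is contained in the lifted polytope. -/
def TrivialSubdivision {n : ℕ} (A : Finset (Fin n → ℕ)) (c : (Fin n → ℕ) → ℝ) : Prop :=
  ∃ l : (Fin n → ℝ) →ᵃ[ℝ] ℝ,
    (∀ a ∈ A, l (realPt a) ≤ - c a) ∧
    ∀ p ∈ convexHull ℝ (realPt '' (A : Set (Fin n → ℕ))),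
      ((p, l p) : (Fin n → ℝ) × ℝ) ∈
        convexHull ℝ ((fun a : Fin n → ℕ => ((realPt a, - c a) : (Fin n → ℝ) × ℝ)) ''
          (A : Set (Fin n → ℕ)))

/-- A unit is a tropical polynomial whose regular subdivision is trivial. -/
def IsTropUnit {n : ℕ} (f : (Fin n → ℝ) → ℝ) : Prop :=
  ∃ (A : Finset (Fin n → ℕ)) (hA : A.Nonempty) (c : (Fin n → ℕ) → ℝ),
    f = tropEval A hA c ∧ TrivialSubdivision A c

/-- A finite (nonempty) tropical product of units, i.e. a pointwise sum of units. -/
def IsProdOfUnits {n : ℕ} (g : (Fin n → ℝ) → ℝ) : Prop :=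
  ∃ L : List ((Fin n → ℝ) → ℝ), L ≠ [] ∧ (∀ u ∈ L, IsTropUnit u) ∧ g = L.sum

/-- `f` is rationally factorizable: `f ⊙ g = h` with `g`, `h` finite tropical products of units. -/
def IsRationallyFactorizable {n : ℕ} (f : (Fin n → ℝ) → ℝ) : Prop :=
  ∃ g h : (Fin n → ℝ) → ℝ, IsProdOfUnits g ∧ IsProdOfUnits h ∧ f + g = h

section aux

variable {n : ℕ}

/-- auxiliary total version of `tropEval` -/
noncomputable def E (c : (Fin n → ℕ) → ℝ) (B : Finset (Fin n → ℕ)) (x : Fin n → ℝ) : ℝ :=
  if h : B.Nonempty then tropEval B h c x else 0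

theorem E_eq (c : (Fin n → ℕ) → ℝ) (B : Finset (Fin n → ℕ)) (h : B.Nonempty) :
    E c B = tropEval B h c := by
  funext x; simp [E, h]

theorem isProd_add {g g' : (Fin n → ℝ) → ℝ} (h : IsProdOfUnits g) (h' : IsProdOfUnits g') :
    IsProdOfUnits (g + g') := by
  obtain ⟨L, hL, hu, rfl⟩ := h
  obtain ⟨L', hL', hu', rfl⟩ := h'
  refine ⟨L ++ L', by simp [hL], ?_, by simp⟩
  intro u hu2
  rcases List.mem_append.1 hu2 with h1 | h1
  · exact hu u h1
  · exact hu' u h1

theorem isProd_of_unit {g : (Fin n → ℝ) → ℝ} (h : IsTropUnit g) : IsProdOfUnits g :=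
  ⟨[g], by simp, by simpa using h, by simp⟩

/-- if the coefficients are an affine function of the exponents we get a unit -/
theorem unit_of_affine (A : Finset (Fin n → ℕ)) (hA : A.Nonempty) (c : (Fin n → ℕ) → ℝ)
    (l : (Fin n → ℝ) →ᵃ[ℝ] ℝ) (hl : ∀ a ∈ A, l (realPt a) = - c a) :
    IsTropUnit (tropEval A hA c) := by
  refine ⟨A, hA, c, rfl, l, fun a ha => (hl a ha).le, ?_⟩
  intro p hp
  have h1 : (AffineMap.prod (AffineMap.id ℝ (Fin n → ℝ)) l) p ∈
      (AffineMap.prod (AffineMap.id ℝ (Fin n → ℝ)) l) ''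
        convexHull ℝ (realPt '' (A : Set (Fin n → ℕ))) := ⟨p, hp, rfl⟩
  rw [AffineMap.image_convexHull] at h1
  have h2 : (AffineMap.prod (AffineMap.id ℝ (Fin n → ℝ)) l) '' (realPt '' (A : Set (Fin n → ℕ)))
      = (fun a : Fin n → ℕ => ((realPt a, - c a) : (Fin n → ℝ) × ℝ)) ''
          (A : Set (Fin n → ℕ)) := by
    rw [Set.image_image]
    apply Set.image_congr
    intro a ha
    simp [hl a ha]
  rw [h2] at h1
  simpa using h1

/-- Fredholm alternative: either the coefficients are affine in the exponents, or some affine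
dependence of the exponents has positive pairing with the coefficients. -/
theorem alternative (A : Finset (Fin n → ℕ)) (c : (Fin n → ℕ) → ℝ) :
    (∃ l : (Fin n → ℝ) →ᵃ[ℝ] ℝ, ∀ a ∈ A, l (realPt a) = - c a) ∨
    (∃ w : (Fin n → ℕ) → ℝ, ∑ a ∈ A, w a = 0 ∧ (∀ i, ∑ a ∈ A, w a * (a i : ℝ) = 0) ∧
      0 < ∑ a ∈ A, w a * c a) := by
  classical
  let f : (A → ℝ) →ₗ[ℝ] (ℝ × (Fin n → ℝ)) :=
    { toFun := fun w => (∑ a, w a, fun i => ∑ a : A, w a * ((a : Fin n → ℕ) i : ℝ))
      map_add' := by
        intro w w'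
        ext <;> simp [Finset.sum_add_distrib, add_mul, -Finset.univ_eq_attach]
      map_smul' := by
        intro r w
        ext <;> simp [Finset.mul_sum, mul_assoc, -Finset.univ_eq_attach] }
  let φ : (A → ℝ) →ₗ[ℝ] ℝ :=
    { toFun := fun w => ∑ a : A, w a * c a
      map_add' := by intro w w'; simp [Finset.sum_add_distrib, add_mul, -Finset.univ_eq_attach]
      map_smul' := by intro r w; simp [Finset.mul_sum, mul_assoc, -Finset.univ_eq_attach] }
  by_cases hφ : ∀ w ∈ LinearMap.ker f, φ w = 0
  · left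
    have h1 : (φ : Module.Dual ℝ (A → ℝ)) ∈ (LinearMap.ker f).dualAnnihilator := by
      rw [Submodule.mem_dualAnnihilator]; exact hφ
    rw [← LinearMap.range_dualMap_eq_dualAnnihilator_ker] at h1
    obtain ⟨ψ, hψ⟩ := h1
    let L : (Fin n → ℝ) →ₗ[ℝ] ℝ := -(ψ ∘ₗ LinearMap.inr ℝ ℝ (Fin n → ℝ))
    refine ⟨L.toAffineMap + AffineMap.const ℝ (Fin n → ℝ) (-(ψ (1, 0))), ?_⟩
    intro a ha
    have h2 : φ (Pi.single (⟨a, ha⟩ : A) 1) = c a := by
      have : ∑ b : A, (Pi.single (⟨a, ha⟩ : A) (1 : ℝ) : A → ℝ) b * c b = c a := by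
        rw [Finset.sum_eq_single (⟨a, ha⟩ : A)]
        · simp
        · intro b _ hb; simp [hb]
        · intro h; exact absurd (Finset.mem_univ _) h
      exact this
    have h3 : f (Pi.single (⟨a, ha⟩ : A) 1) = (1, realPt a) := by
      refine Prod.ext ?_ ?_
      · have : ∑ b : A, (Pi.single (⟨a, ha⟩ : A) (1 : ℝ) : A → ℝ) b = 1 := by
          rw [Finset.sum_eq_single (⟨a, ha⟩ : A)]
          · simp
          · intro b _ hb; simp [hb]
          · intro h; exact absurd (Finset.mem_univ _) h
        exact this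
      · funext i
        have : ∑ b : A, (Pi.single (⟨a, ha⟩ : A) (1 : ℝ) : A → ℝ) b * ((b : Fin n → ℕ) i : ℝ)
            = (a i : ℝ) := by
          rw [Finset.sum_eq_single (⟨a, ha⟩ : A)]
          · simp
          · intro b _ hb; simp [hb]
          · intro h; exact absurd (Finset.mem_univ _) h
        exact this
    have h4 : ψ (1, realPt a) = c a := by
      rw [← h2, ← hψ, LinearMap.dualMap_apply, h3]
    have h5 : ((1, realPt a) : ℝ × (Fin n → ℝ)) = (1, 0) + (0, realPt a) := by simp
    rw [h5, map_add] at h4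
    simp only [L, AffineMap.coe_add, Pi.add_apply, LinearMap.coe_toAffineMap,
      LinearMap.neg_apply, LinearMap.coe_comp, Function.comp_apply, LinearMap.coe_inr,
      AffineMap.const_apply]
    linarith
  · right
    push Not at hφ
    obtain ⟨w, hw, hw2⟩ := hφ
    -- choose the sign
    obtain ⟨w', hw', hw'2⟩ : ∃ w' : A → ℝ, f w' = 0 ∧ 0 < φ w' := by
      rcases lt_or_gt_of_ne hw2 with h | h
      · refine ⟨-w, ?_, ?_⟩
        · rw [map_neg, LinearMap.mem_ker.1 hw, neg_zero]
        · rw [map_neg]; linarith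
      · exact ⟨w, LinearMap.mem_ker.1 hw, h⟩
    refine ⟨fun a => if h : a ∈ A then w' ⟨a, h⟩ else 0, ?_, ?_, ?_⟩
    · have h1 : ∑ a : A, w' a = 0 := congrArg Prod.fst hw'
      rw [← Finset.sum_coe_sort A]
      simpa using h1
    · intro i
      have h1 : ∑ a : A, w' a * ((a : Fin n → ℕ) i : ℝ) = 0 :=
        congrFun (congrArg Prod.snd hw') i
      rw [← Finset.sum_coe_sort A]
      simpa using h1
    · have h1 : 0 < ∑ a : A, w' a * c a := hw'2
      rw [← Finset.sum_coe_sort A]
      simpa using h1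

theorem val_sum (A : Finset (Fin n → ℕ)) (c w : (Fin n → ℕ) → ℝ)
    (h1 : ∀ i, ∑ a ∈ A, w a * (a i : ℝ) = 0) (x : Fin n → ℝ) :
    ∑ a ∈ A, w a * monoVal (c a) a x = ∑ a ∈ A, w a * c a := by
  simp only [monoVal, mul_add, Finset.sum_add_distrib, Finset.mul_sum]
  have : ∑ a ∈ A, ∑ i, w a * ((a i : ℝ) * x i) = 0 := by
    rw [Finset.sum_comm]
    apply Finset.sum_eq_zero
    intro i _
    have := h1 i
    calc ∑ a ∈ A, w a * ((a i : ℝ) * x i) = (∑ a ∈ A, w a * (a i : ℝ)) * x i := by
          rw [Finset.sum_mul]; exact Finset.sum_congr rfl (fun a _ => by ring)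
      _ = 0 := by rw [this, zero_mul]
  rw [this, add_zero]

/-- inclusion-exclusion identity -/
theorem incl_excl (A : Finset (Fin n → ℕ)) (c w : (Fin n → ℕ) → ℝ)
    (h0 : ∑ a ∈ A, w a = 0) (h1 : ∀ i, ∑ a ∈ A, w a * (a i : ℝ) = 0)
    (h2 : 0 < ∑ a ∈ A, w a * c a) :
    ∑ S ∈ (A.filter (fun a => w a < 0)).powerset, ((-1 : ℤ) ^ S.card) • E c (A \ S) = 0 := by
  classical
  set N := A.filter (fun a => w a < 0) with hN
  set P := A.filter (fun a => 0 < w a) with hP
  funext x
  -- some `b ∈ N` whose value is at most the value of some `a ∈ P`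
  obtain ⟨b, hb, a, ha, hab⟩ : ∃ b ∈ N, ∃ a ∈ P, monoVal (c b) b x ≤ monoVal (c a) a x := by
    by_contra hcon
    push Not at hcon
    have hPne : P.Nonempty := by
      by_contra hP0
      rw [Finset.not_nonempty_iff_eq_empty] at hP0
      have hle : ∀ a ∈ A, w a ≤ 0 := by
        intro a ha
        by_contra hlt
        push Not at hlt
        have : a ∈ P := Finset.mem_filter.2 ⟨ha, hlt⟩
        rw [hP0] at this
        simp at this
      have hz : ∀ a ∈ A, w a = 0 := (Finset.sum_eq_zero_iff_of_nonpos hle).1 h0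
      have : ∑ a ∈ A, w a * c a = 0 := Finset.sum_eq_zero (fun a ha => by rw [hz a ha, zero_mul])
      linarith
    set M := P.sup' hPne (fun a => monoVal (c a) a x) with hM
    have hle : ∀ a ∈ A, w a * monoVal (c a) a x ≤ w a * M := by
      intro a ha
      rcases lt_trichotomy (w a) 0 with h | h | h
      · have haN : a ∈ N := Finset.mem_filter.2 ⟨ha, h⟩
        have hMlt : M ≤ monoVal (c a) a x := by
          apply Finset.sup'_le
          intro a' ha'
          exact (hcon a haN a' ha').le
        nlinarith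
      · simp [h]
      · have haP : a ∈ P := Finset.mem_filter.2 ⟨ha, h⟩
        have := Finset.le_sup' (fun a => monoVal (c a) a x) haP
        exact mul_le_mul_of_nonneg_left this h.le
    have hs := Finset.sum_le_sum hle
    rw [val_sum A c w h1 x, ← Finset.sum_mul, h0, zero_mul] at hs
    linarith
  have hbA : b ∈ A := (Finset.mem_filter.1 hb).1
  have haA : a ∈ A := (Finset.mem_filter.1 ha).1
  have haN : a ∉ N := by
    intro h
    have h3 := (Finset.mem_filter.1 h).2
    have h4 := (Finset.mem_filter.1 ha).2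
    linarith
  have hins : N = insert b (N.erase b) := (Finset.insert_erase hb).symm
  rw [hins, Finset.sum_powerset_insert (Finset.notMem_erase b N)]
  simp only [Pi.add_apply, Finset.sum_apply, Pi.smul_apply, Pi.zero_apply]
  rw [← Finset.sum_add_distrib]
  apply Finset.sum_eq_zero
  intro S hS
  rw [Finset.mem_powerset] at hS
  have hbS : b ∉ S := fun h => Finset.notMem_erase b N (hS h)
  have hSN : S ⊆ N := hS.trans (Finset.erase_subset _ _)
  have haS : a ∉ S := fun h => haN (hSN h)
  have hab' : a ≠ b := fun h => haN (h ▸ hb)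
  rw [Finset.card_insert_of_notMem hbS]
  have hE : E c (A \ S) x = E c (A \ insert b S) x := by
    have hne2 : (A \ insert b S).Nonempty := ⟨a, by simp [haA, haS, hab']⟩
    have hne1 : (A \ S).Nonempty := ⟨a, by simp [haA, haS]⟩
    rw [E_eq c _ hne1, E_eq c _ hne2]
    unfold tropEval
    apply le_antisymm
    · apply Finset.sup'_le
      intro y hy
      by_cases hyb : y = b
      · subst hyb
        refine hab.trans ?_
        exact Finset.le_sup' (fun a => monoVal (c a) a x)
          (show a ∈ A \ insert y S by simp [haA, haS, hab'])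
      · exact Finset.le_sup' (fun a => monoVal (c a) a x)
          (show y ∈ A \ insert b S by
            rw [Finset.mem_sdiff] at hy
            simp [hy.1, hy.2, hyb])
    · apply Finset.sup'_le
      intro y hy
      exact Finset.le_sup' (fun a => monoVal (c a) a x)
          (show y ∈ A \ S by
            rw [Finset.mem_sdiff, Finset.mem_insert] at hy
            rw [Finset.mem_sdiff]
            exact ⟨hy.1, fun h => hy.2 (Or.inr h)⟩)
  rw [hE, pow_succ]
  simp

/-- the group generated by units contains all tropical polynomials -/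
theorem mem_closure (c : (Fin n → ℕ) → ℝ) :
    ∀ k : ℕ, ∀ (A : Finset (Fin n → ℕ)), A.card = k → A.Nonempty →
      E c A ∈ AddSubgroup.closure {u : (Fin n → ℝ) → ℝ | IsTropUnit u} := by
  classical
  intro k
  induction k using Nat.strong_induction_on with
  | _ k ih =>
    intro A hk hA
    rcases alternative A c with ⟨l, hl⟩ | ⟨w, h0, h1, h2⟩
    · apply AddSubgroup.subset_closure
      rw [E_eq c A hA]
      exact unit_of_affine A hA c l hl
    · have hid := incl_excl A c w h0 h1 h2
      set N := A.filter (fun a => w a < 0) with hN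
      rw [← Finset.add_sum_erase _ _ (Finset.empty_mem_powerset N)] at hid
      simp only [Finset.card_empty, pow_zero, Finset.sdiff_empty, one_smul] at hid
      have hA' : E c A = - ∑ S ∈ N.powerset.erase ∅, ((-1 : ℤ) ^ S.card) • E c (A \ S) :=
        eq_neg_of_add_eq_zero_left hid
      rw [hA']
      apply AddSubgroup.neg_mem
      apply AddSubgroup.sum_mem
      intro S hS
      rw [Finset.mem_erase, Finset.mem_powerset] at hS
      apply AddSubgroup.zsmul_mem
      have hSA : S ⊆ A := hS.2.trans (Finset.filter_subset _ _)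
      have hSne : S.Nonempty := Finset.nonempty_iff_ne_empty.2 hS.1
      have hcard : (A \ S).card < k := by
        rw [Finset.card_sdiff_of_subset hSA, hk]
        have := hSne.card_pos
        have := Finset.card_le_card hSA
        omega
      refine ih _ hcard _ rfl ?_
      -- nonempty: some element has nonnegative weight
      by_contra hemp
      rw [Finset.not_nonempty_iff_eq_empty, Finset.sdiff_eq_empty_iff_subset] at hemp
      have hlt : ∀ a ∈ A, w a < 0 := fun a ha => (Finset.mem_filter.1 (hS.2 (hemp ha))).2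
      have := Finset.sum_neg hlt hA
      linarith

theorem unit_zero : IsTropUnit (0 : (Fin n → ℝ) → ℝ) := by
  have h := unit_of_affine (n := n) {0} (Finset.singleton_nonempty _) (fun _ => 0)
    (AffineMap.const ℝ _ 0) (by intro a _; simp)
  have : tropEval (n := n) {0} (Finset.singleton_nonempty _) (fun _ => 0) = 0 := by
    funext x; simp [tropEval, monoVal]
  rwa [this] at h

end aux

/-- Every tropical polynomial in `n` variables is rationally factorizable. -/
theorem result (n : ℕ) (f : (Fin n → ℝ) → ℝ) (hf : IsTropPoly f) :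
    IsRationallyFactorizable f := by
  obtain ⟨A, hA, c, rfl⟩ := hf
  have hmem := mem_closure c A.card A rfl hA
  rw [E_eq c A hA] at hmem
  -- closure induction
  refine AddSubgroup.closure_induction (p := fun f _ => IsRationallyFactorizable f)
    ?_ ?_ ?_ ?_ hmem
  · intro u hu
    exact ⟨0, u, isProd_of_unit unit_zero, isProd_of_unit hu, by simp⟩
  · exact ⟨0, 0, isProd_of_unit unit_zero, isProd_of_unit unit_zero, by simp⟩
  · rintro f1 f2 _ _ ⟨g1, h1, hg1, hh1, e1⟩ ⟨g2, h2, hg2, hh2, e2⟩
    refine ⟨g1 + g2, h1 + h2, isProd_add hg1 hg2, isProd_add hh1 hh2, ?_⟩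
    rw [← e1, ← e2]; abel
  · rintro f1 _ ⟨g1, h1, hg1, hh1, e1⟩
    refine ⟨h1, g1, hh1, hg1, ?_⟩
    rw [← e1]; abel

end Pool.Agent.Results.MP_b8ee47_co.RationalFactor
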